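import Pool.Agent.N964.GW.Stm

set_option autoImplicit false

/-!
# Project GW, part C: the contour integral (helper344)
-/

namespace Pool.Agent.N344.GWC

open Complex MeasureTheory Filter Topology
open Pool.Agent.N964.GW
open Pool.Agent.N964.GX (S_res)
open Pool.Agent.W354 (LogC)
open Y767.WH (GoodH)

/-! ### the kernel -/

lemma cosh_pos {l s : ℝ} (hl : 0 < l) (hs : 0 < s) : 0 < Real.cosh (l * s) - 1 := by
  have : 1 < Real.cosh (l * s) := Real.one_lt_cosh.2 (by positivity)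
  linarith

lemma c0_nonneg {l s : ℝ} (hl : 0 < l) (hs : 0 < s) : 0 ≤ c0 l s := by
  unfold c0
  have hc := cosh_pos hl hs
  have h1 : 1 ≤ Real.sinh (l * s) / (Real.cosh (l * s) - 1) := by
    rw [le_div_iff₀ hc, one_mul]
    have h2 := Real.cosh_sub_sinh (l * s)
    have h3 : Real.exp (-(l * s)) ≤ 1 := Real.exp_le_one_iff.2 (by
      have := mul_pos hl hs
      linarith)
    linarith
  linarith

/-- the kernel at the pole -/
lemma Hn_s {l s : ℝ} (hl : 0 < l) (hs : 0 < s) : Hn l s s = 1 := by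
  unfold Hn
  have hc := cosh_pos hl hs
  have h2 : ((s : ℂ) + s) ≠ 0 := by
    have : ((s : ℂ) + s) = ((2 * s : ℝ) : ℂ) := by push_cast; ring
    rw [this]
    exact_mod_cast (by positivity : (2 * s) ≠ 0)
  have hs' : (s : ℂ) ≠ 0 := by exact_mod_cast hs.ne'
  have e1 : cexp (l * ((s : ℂ) + s)) = ((Real.exp (l * s) ^ 2 : ℝ) : ℂ) := by
    push_cast
    rw [← Complex.exp_nat_mul]
    congr 1
    push_cast
    ring
  have e0 : cexp ((l : ℂ) * 0) = 1 := by rw [mul_zero, Complex.exp_zero]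
  have hE : Real.exp (l * s) ≠ 0 := (Real.exp_pos _).ne'
  rw [dslope_of_ne _ h2, slope_def_field, div_eq_one_iff_eq (by exact_mod_cast hc.ne')]
  simp only [e1, e0]
  rw [Real.cosh_eq, Real.exp_neg]
  generalize Real.exp (l * s) = E at *
  have hE' : (E : ℂ) ≠ 0 := by exact_mod_cast hE
  push_cast
  field_simp
  ring

lemma Hn_diff (l s : ℝ) : Differentiable ℂ (Hn l s) := by
  unfold Hn
  have h1 : Differentiable ℂ (dslope (fun u : ℂ => cexp (l * u)) 0) := by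
    rw [← differentiableOn_univ, Complex.differentiableOn_dslope Filter.univ_mem]
    have : Differentiable ℂ (fun u : ℂ => cexp (l * u)) := by fun_prop
    exact this.differentiableOn
  have h2 : Differentiable ℂ (fun w : ℂ => dslope (fun u : ℂ => cexp (l * u)) 0 (w + s)) :=
    h1.comp (differentiable_id.add_const _)
  exact ((h2.const_mul _).sub_const _).div_const _

/-- the numerator at the pole -/
noncomputable def hh (l s κ : ℝ) (z0 z : ℂ) : ℂ :=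
  Hn l s (z - z0) + (z - z0 - s) * ((c0 l s : ℂ) * Kp κ (z - z0))

lemma hh_div {l s κ : ℝ} {z0 z : ℂ} (hz : z - z0 - s ≠ 0) :
    hh l s κ z0 z / (z - z0 - s) = H2 l s κ (z - z0) := by
  unfold hh H2
  rw [add_div, mul_div_cancel_left₀ _ hz]

lemma hh_q {l s κ : ℝ} (hl : 0 < l) (hs : 0 < s) (z0 : ℂ) : hh l s κ z0 (z0 + s) = 1 := by
  unfold hh
  rw [show z0 + (s : ℂ) - z0 = s by ring, sub_self, zero_mul, add_zero, Hn_s hl hs]

lemma hh_an {l s κ t : ℝ} {z : ℂ} (h1 : -2 < z.re) (h2 : z.re < 3) :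
    AnalyticAt ℂ (hh l s κ (1 / 2 + κ + t * I)) z := by
  have hopen : IsOpen {z : ℂ | -2 < z.re ∧ z.re < 3} :=
    (isOpen_lt continuous_const Complex.continuous_re).inter
      (isOpen_lt Complex.continuous_re continuous_const)
  refine DifferentiableOn.analyticAt (s := {z : ℂ | -2 < z.re ∧ z.re < 3}) ?_
    (hopen.mem_nhds ⟨h1, h2⟩)
  intro z hz
  apply DifferentiableAt.differentiableWithinAt
  unfold hh Kp
  have hden : (z - (1 / 2 + κ + t * I) + κ) ^ 2 - 25 / 4 ≠ 0 := by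
    intro h
    have h3 : (z - (1 / 2 + κ + t * I) + κ - 5 / 2) * (z - (1 / 2 + κ + t * I) + κ + 5 / 2) = 0 := by
      rw [← h]; ring
    have hr : (z - (1 / 2 + κ + t * I) + κ).re = z.re - 1 / 2 := by
      simp
      ring
    rcases mul_eq_zero.1 h3 with h4 | h4
    · have h5 := congrArg Complex.re h4
      rw [Complex.sub_re, hr] at h5
      norm_num at h5
      have h6 : z.re < 3 := hz.2
      linarith
    · have h5 := congrArg Complex.re h4
      rw [Complex.add_re, hr] at h5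
      norm_num at h5
      have h6 : -2 < z.re := hz.1
      linarith
  have n1 : DifferentiableAt ℂ (fun z : ℂ => Hn l s (z - (1 / 2 + κ + t * I))) z :=
    ((Hn_diff l s).comp (differentiable_id.sub_const _)).differentiableAt
  have n2 : DifferentiableAt ℂ (fun z : ℂ => (z - (1 / 2 + κ + t * I) + κ) /
      ((z - (1 / 2 + κ + t * I) + κ) ^ 2 - 25 / 4)) z := by
    refine DifferentiableAt.div (by fun_prop) (by fun_prop) hden
  refine n1.add (DifferentiableAt.mul (by fun_prop) (n2.const_mul _))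

/-! ### the zeros -/

section
variable {k : ℕ} {A : ℝ} {lc : ℝ → ℝ} {F : ℂ → ℂ} {a : ℕ → ℂ} {κ : ℝ}

lemma zero_re (H : LG k A lc F a κ) {z : ℂ} (hz : 1 ≤ z.im) (h0 : F z = 0) :
    0 < z.re ∧ z.re < 1 ∧ z.re ≤ 1 / 2 + κ := by
  refine ⟨?_, ?_, ?_⟩
  · by_contra h
    push Not at h
    exact H.good.nzl z h hz h0
  · by_contra h
    push Not at h
    exact H.good.nzr z h hz h0
  · by_contra h
    push Not at h
    exact H.rh z h hz h0

lemma zero_symm (H : LG k A lc F a κ) {z : ℂ} (hz : 1 ≤ z.im) (h0 : F z = 0) :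
    F (1 - (starRingEnd ℂ) z) = 0 ∧ H370.mult F (1 - (starRingEnd ℂ) z) = H370.mult F z := by
  obtain ⟨h1, h2, -⟩ := zero_re H hz h0
  have h3 := H.good.symm z h1 h2 hz
  have han1 : AnalyticAt ℂ F (1 - (starRingEnd ℂ) z) := by
    apply H.good.an
    simp
    linarith
  have han2 : AnalyticAt ℂ F z := H.good.an z (by linarith)
  constructor
  · by_contra h
    rw [han1.analyticOrderAt_eq_zero.2 h] at h3
    exact (han2.analyticOrderAt_eq_zero.1 h3.symm) h0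
  · unfold H370.mult analyticOrderNatAt
    rw [h3]

/-- the sum over the zeros -/
lemma zsum (hpos : S_pos) (hzero : S_zero) (H : LG k A lc F a κ) {t s l V1 V2 : ℝ} (hs : 0 < s)
    (hl : 0 < l) (hV1 : 1 ≤ V1)
    (hfin : Set.Finite {z | z ∈ Set.Ioo (κ - 3 / 4) (7 / 4 + κ) ×ℂ Set.Ioo V1 V2 ∧ F z = 0}) :
    0 ≤ (∑ᶠ z ∈ {z | z ∈ Set.Ioo (κ - 3 / 4) (7 / 4 + κ) ×ℂ Set.Ioo V1 V2 ∧ F z = 0},
      (H370.mult F z : ℂ) * (hh l s κ (1 / 2 + κ + t * I) z / (z - (1 / 2 + κ + t * I + s)))).re := by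
  have hκ0 := H.hκ0
  have hκ1 := H.hκ1
  rw [finsum_mem_eq_finite_toFinset_sum _ hfin, Complex.re_sum]
  have hmem : ∀ z ∈ hfin.toFinset, 1 ≤ z.im ∧ V1 < z.im ∧ z.im < V2 ∧ F z = 0 := by
    intro z hz
    rw [Set.Finite.mem_toFinset] at hz
    have h1 : V1 < z.im := hz.1.2.1
    exact ⟨by linarith, h1, hz.1.2.2, hz.2⟩
  have hz0 := hzero κ t hfin.toFinset (H370.mult F) (by
    intro z hz
    obtain ⟨h1, h2, h3, h4⟩ := hmem z hz
    obtain ⟨h5, h6⟩ := zero_symm H h1 h4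
    obtain ⟨h7, h8, -⟩ := zero_re H h1 h4
    refine ⟨?_, h6⟩
    rw [Set.Finite.mem_toFinset]
    refine ⟨⟨⟨?_, ?_⟩, ⟨?_, ?_⟩⟩, h5⟩
    · simp
      linarith
    · simp
      linarith
    · simpa using h2
    · simpa using h3)
  have hsum : ∑ z ∈ hfin.toFinset, ((H370.mult F z : ℂ) * (hh l s κ (1 / 2 + κ + t * I) z /
      (z - (1 / 2 + κ + t * I + s)))).re =
      ∑ z ∈ hfin.toFinset, (H370.mult F z : ℝ) * (Hn l s (z - (1 / 2 + κ + t * I)) /
        (z - (1 / 2 + κ + t * I) - s)).re +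
      c0 l s * ∑ z ∈ hfin.toFinset, (H370.mult F z : ℝ) * (Kp κ (z - (1 / 2 + κ + t * I))).re := by
    rw [Finset.mul_sum, ← Finset.sum_add_distrib]
    refine Finset.sum_congr rfl fun z hz => ?_
    obtain ⟨h1, h2, h3, h4⟩ := hmem z hz
    obtain ⟨h7, h8, h9⟩ := zero_re H h1 h4
    have hne : z - (1 / 2 + κ + t * I) - s ≠ 0 := by
      intro h
      have h5 := congrArg Complex.re h
      simp at h5
      linarith
    rw [← sub_sub, hh_div hne]
    unfold H2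
    have e2 : ((H370.mult F z : ℕ) : ℂ) = ((H370.mult F z : ℝ) : ℂ) := by push_cast; rfl
    rw [e2, Complex.re_ofReal_mul, Complex.add_re, Complex.re_ofReal_mul]
    ring
  rw [hsum, hz0, mul_zero, add_zero]
  apply Finset.sum_nonneg
  intro z hz
  obtain ⟨h1, h2, h3, h4⟩ := hmem z hz
  obtain ⟨h7, h8, h9⟩ := zero_re H h1 h4
  apply mul_nonneg (Nat.cast_nonneg _)
  apply hpos l s hl hs
  simp
  linarith

/-- the contour integral -/
lemma resd (hres : S_res) (hpos : S_pos) (hzero : S_zero) (H : LG k A lc F a κ) {t s l V1 V2 : ℝ}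
    (hs : 0 < s) (hs1 : s ≤ 1) (hl : 0 < l) (hV1 : 1 ≤ V1) (hV1t : V1 < t) (hV2 : t < V2)
    (g1 : ∀ x ∈ Set.Icc (-3 / 4 : ℝ) (7 / 4), F ⟨x, V1⟩ ≠ 0)
    (g2 : ∀ x ∈ Set.Icc (-3 / 4 : ℝ) (7 / 4), F ⟨x, V2⟩ ≠ 0) :
    ∃ S : ℂ, 0 ≤ S.re ∧ H370.RI (κ - 3 / 4) (7 / 4 + κ) V1 V2 (fun z => deriv F z / F z *
      H2 l s κ (z - (1 / 2 + κ + t * I))) = 2 * Real.pi * I *
        (deriv F (1 / 2 + κ + s + t * I) / F (1 / 2 + κ + s + t * I) + S) := by
  have hκ0 := H.hκ0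
  have hκ1 := H.hκ1
  obtain ⟨q, hq⟩ : ∃ q : ℂ, q = 1 / 2 + κ + t * I + s := ⟨_, rfl⟩
  have hq' : 1 / 2 + κ + s + t * I = q := by rw [hq]; ring
  have hqre : q.re = 1 / 2 + κ + s := by
    rw [hq]; simp
  have hqim : q.im = t := by
    rw [hq]; simp
  have him : ∀ z ∈ Set.Icc (κ - 3 / 4) (7 / 4 + κ) ×ℂ Set.Icc V1 V2, 1 ≤ z.im :=
    fun z hz => hV1.trans hz.2.1
  have hFq : F q ≠ 0 := by
    apply H.rh
    · rw [hqre]; linarith
    · rw [hqim]; linarith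
  have hopen : ∀ z ∈ Set.Icc (κ - 3 / 4) (7 / 4 + κ) ×ℂ Set.Icc V1 V2, F z = 0 →
      z ∈ Set.Ioo (κ - 3 / 4) (7 / 4 + κ) ×ℂ Set.Ioo V1 V2 := by
    intro z hz h0
    obtain ⟨h7, h8, h9⟩ := zero_re H (him z hz) h0
    have hz1 : z = ⟨z.re, z.im⟩ := rfl
    refine ⟨⟨?_, ?_⟩, ⟨?_, ?_⟩⟩
    · linarith
    · linarith
    · refine lt_of_le_of_ne hz.2.1 fun h => ?_
      rw [hz1, ← h] at h0
      exact g1 z.re ⟨by linarith, by linarith⟩ h0
    · refine lt_of_le_of_ne hz.2.2 fun h => ?_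
      rw [hz1, h] at h0
      exact g2 z.re ⟨by linarith, by linarith⟩ h0
  obtain ⟨hfin, hR⟩ := hres F (hh l s κ (1 / 2 + κ + t * I)) (κ - 3 / 4) (7 / 4 + κ) V1 V2 q
    (by linarith) (by linarith)
    (fun z hz => H.good.an z (by linarith [him z hz]))
    (fun z hz => hh_an (by have : κ - 3 / 4 ≤ z.re := hz.1.1; linarith)
      (by have : z.re ≤ 7 / 4 + κ := hz.1.2; linarith))
    hopen
    ⟨⟨by show κ - 3 / 4 < q.re; rw [hqre]; linarith, by show q.re < 7 / 4 + κ; rw [hqre]; linarith⟩,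
      ⟨by show V1 < q.im; rw [hqim]; exact hV1t, by show q.im < V2; rw [hqim]; exact hV2⟩⟩ hFq
  have hfun : ∀ z : ℂ, z ≠ q → deriv F z / F z * H2 l s κ (z - (1 / 2 + κ + t * I)) =
      deriv F z / F z * (hh l s κ (1 / 2 + κ + t * I) z / (z - q)) := by
    intro z hz
    have h1 : z - (1 / 2 + κ + t * I) - s ≠ 0 := by
      intro h
      apply hz
      rw [hq]
      linear_combination h
    rw [← hh_div h1, hq, sub_sub z]
  have hRI : H370.RI (κ - 3 / 4) (7 / 4 + κ) V1 V2 (fun z => deriv F z / F z *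
      H2 l s κ (z - (1 / 2 + κ + t * I))) = H370.RI (κ - 3 / 4) (7 / 4 + κ) V1 V2
        (fun z => deriv F z / F z * (hh l s κ (1 / 2 + κ + t * I) z / (z - q))) := by
    unfold H370.RI
    have i1 : ∀ V : ℝ, V ≠ t → ∫ x in (κ - 3 / 4)..(7 / 4 + κ), (fun z => deriv F z / F z *
        H2 l s κ (z - (1 / 2 + κ + t * I))) ⟨x, V⟩ = ∫ x in (κ - 3 / 4)..(7 / 4 + κ),
        (fun z => deriv F z / F z * (hh l s κ (1 / 2 + κ + t * I) z / (z - q))) ⟨x, V⟩ := by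
      intro V hV
      refine intervalIntegral.integral_congr fun x _ => ?_
      apply hfun
      intro h
      apply hV
      rw [← hqim, ← h]
    have i2 : ∀ x : ℝ, x ≠ 1 / 2 + κ + s → ∫ y in V1..V2, (fun z => deriv F z / F z *
        H2 l s κ (z - (1 / 2 + κ + t * I))) ⟨x, y⟩ = ∫ y in V1..V2,
        (fun z => deriv F z / F z * (hh l s κ (1 / 2 + κ + t * I) z / (z - q))) ⟨x, y⟩ := by
      intro x hx
      refine intervalIntegral.integral_congr fun y _ => ?_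
      apply hfun
      intro h
      apply hx
      rw [← hqre, ← h]
    rw [i1 V1 hV1t.ne, i1 V2 hV2.ne', i2 (7 / 4 + κ) (by linarith), i2 (κ - 3 / 4) (by linarith)]
  have hz := zsum hpos hzero H (t := t) (V2 := V2) hs hl hV1 hfin
  rw [← hq] at hz
  refine ⟨_, hz, ?_⟩
  rw [hRI, hR, hq', hq, hh_q hl hs, mul_one]

/-- the inequality, with a bound for the horizontal edges -/
lemma core (hres : S_res) (hpos : S_pos) (hzero : S_zero) (H : LG k A lc F a κ) {t s l V1 V2 : ℝ}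
    (hs : 0 < s) (hs1 : s ≤ 1) (hl : 0 < l) (hV1 : 1 ≤ V1) (hV1t : V1 < t) (hV2 : t < V2)
    (g1 : ∀ x ∈ Set.Icc (-3 / 4 : ℝ) (7 / 4), F ⟨x, V1⟩ ≠ 0)
    (g2 : ∀ x ∈ Set.Icc (-3 / 4 : ℝ) (7 / 4), F ⟨x, V2⟩ ≠ 0) {K : ℝ}
    (hK : ∀ V : ℝ, (V = V1 ∨ V = V2) →
      ‖∫ x in (κ - 3 / 4)..(7 / 4 + κ), deriv F ⟨x, V⟩ / F ⟨x, V⟩ *
        H2 l s κ (⟨x, V⟩ - (1 / 2 + κ + t * I))‖ ≤ K) :
    (deriv F (1 / 2 + κ + s + t * I) / F (1 / 2 + κ + s + t * I)).re ≤
    1 / (2 * Real.pi) * (∫ v in V1..V2, deriv F (7 / 4 + κ + v * I) / F (7 / 4 + κ + v * I) *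
        H2 l s κ (5 / 4 + ((v - t : ℝ) : ℂ) * I)).re
    - 1 / (2 * Real.pi) * (∫ v in V1..V2, deriv F (κ - 3 / 4 + v * I) / F (κ - 3 / 4 + v * I) *
        H2 l s κ (-(5 / 4) + ((v - t : ℝ) : ℂ) * I)).re + 1 / (2 * Real.pi) * (2 * K) := by
  obtain ⟨f, hf⟩ : ∃ f : ℂ → ℂ, f = fun z => deriv F z / F z *
    H2 l s κ (z - (1 / 2 + κ + t * I)) := ⟨_, rfl⟩
  obtain ⟨S, hS, hR⟩ := resd hres hpos hzero H hs hs1 hl hV1 hV1t hV2 g1 g2
  rw [← hf] at hR
  obtain ⟨X, hX⟩ : ∃ X : ℂ, X = deriv F (1 / 2 + κ + s + t * I) / F (1 / 2 + κ + s + t * I) :=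
    ⟨_, rfl⟩
  rw [← hX] at hR ⊢
  unfold H370.RI at hR
  obtain ⟨B, hB⟩ : ∃ B : ℂ, B = ∫ x in (κ - 3 / 4)..(7 / 4 + κ), f ⟨x, V1⟩ := ⟨_, rfl⟩
  obtain ⟨T, hT⟩ : ∃ T : ℂ, T = ∫ x in (κ - 3 / 4)..(7 / 4 + κ), f ⟨x, V2⟩ := ⟨_, rfl⟩
  obtain ⟨Rt, hRt⟩ : ∃ Rt : ℂ, Rt = ∫ y in V1..V2, f ⟨7 / 4 + κ, y⟩ := ⟨_, rfl⟩
  obtain ⟨L, hL⟩ : ∃ L : ℂ, L = ∫ y in V1..V2, f ⟨κ - 3 / 4, y⟩ := ⟨_, rfl⟩
  rw [← hB, ← hT, ← hRt, ← hL] at hR
  have hpi := Real.pi_pos
  have r := congrArg Complex.im hR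
  simp only [Complex.add_im, Complex.sub_im, Complex.mul_im, Complex.I_re, Complex.I_im, zero_mul,
    one_mul, Complex.mul_re, Complex.re_ofNat, Complex.im_ofNat, Complex.ofReal_re,
    Complex.ofReal_im, mul_zero, mul_one, add_zero, zero_add, sub_zero, Complex.add_re,
    sub_self] at r
  have kB : |B.im| ≤ K := (Complex.abs_im_le_norm _).trans (by
    rw [hB, hf]; exact hK V1 (Or.inl rfl))
  have kT : |T.im| ≤ K := (Complex.abs_im_le_norm _).trans (by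
    rw [hT, hf]; exact hK V2 (Or.inr rfl))
  have eR : ∫ v in V1..V2, deriv F (7 / 4 + κ + v * I) / F (7 / 4 + κ + v * I) *
        H2 l s κ (5 / 4 + ((v - t : ℝ) : ℂ) * I) = Rt := by
    rw [hRt, hf]
    refine intervalIntegral.integral_congr fun v _ => ?_
    simp only
    have e1 : (⟨7 / 4 + κ, v⟩ : ℂ) = 7 / 4 + κ + v * I := by
      apply Complex.ext <;> simp
    rw [e1]
    congr 2
    push_cast
    ring
  have eL : ∫ v in V1..V2, deriv F (κ - 3 / 4 + v * I) / F (κ - 3 / 4 + v * I) *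
        H2 l s κ (-(5 / 4) + ((v - t : ℝ) : ℂ) * I) = L := by
    rw [hL, hf]
    refine intervalIntegral.integral_congr fun v _ => ?_
    simp only
    have e1 : (⟨κ - 3 / 4, v⟩ : ℂ) = κ - 3 / 4 + v * I := by
      apply Complex.ext <;> simp
    rw [e1]
    congr 2
    push_cast
    ring
  rw [eR, eL]
  have q1 := abs_le.1 kB
  have q2 := abs_le.1 kT
  have fin : 2 * Real.pi * X.re ≤ Rt.re - L.re + 2 * K := by
    have hS2 : 0 ≤ 2 * Real.pi * S.re := by positivity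
    nlinarith
  have e5 : 1 / (2 * Real.pi) * Rt.re - 1 / (2 * Real.pi) * L.re + 1 / (2 * Real.pi) * (2 * K) =
      (Rt.re - L.re + 2 * K) / (2 * Real.pi) := by
    field_simp
  rw [e5, le_div_iff₀ (by positivity)]
  linarith

/-- the logarithmic derivative to the right -/
lemma right_bd (H : LG k A lc F a κ) {z : ℂ} (h1 : 7 / 4 ≤ z.re) (h2 : 1 ≤ z.im) :
    ‖deriv F z / F z‖ ≤ A := by
  rw [H.good.ld z (by linarith) h2, norm_neg]
  have hle : ∀ n : ℕ, ‖a n * (n : ℂ) ^ (-z)‖ ≤ ‖a n‖ * (n : ℝ) ^ (-(7 / 4) : ℝ) := by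
    intro n
    rcases Nat.eq_zero_or_pos n with rfl | hn
    · rw [H.good.ha1 0 (by norm_num), zero_mul, norm_zero, zero_mul]
    · rw [norm_mul, Complex.norm_natCast_cpow_of_pos hn, Complex.neg_re]
      apply mul_le_mul_of_nonneg_left _ (norm_nonneg _)
      apply Real.rpow_le_rpow_of_exponent_le (by exact_mod_cast hn)
      linarith
  exact (tsum_of_norm_bounded H.good.has.hasSum hle).trans H.good.ha

lemma log_sq_le {x : ℝ} (hx : 1 ≤ x) : Real.log x ^ 2 ≤ 4 * x := by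
  have h0 : 0 < x := by linarith
  have h1 : Real.log x = 2 * Real.log (Real.sqrt x) := by
    rw [Real.log_sqrt h0.le]
    ring
  have h2 : Real.log (Real.sqrt x) ≤ Real.sqrt x - 1 := Real.log_le_sub_one_of_pos (Real.sqrt_pos.2 h0)
  have h3 : 0 ≤ Real.log x := Real.log_nonneg hx
  have h4 : Real.log x ≤ 2 * Real.sqrt x := by linarith
  calc Real.log x ^ 2 ≤ (2 * Real.sqrt x) ^ 2 := pow_le_pow_left₀ h3 h4 2
    _ = 4 * x := by
        rw [mul_pow, Real.sq_sqrt h0.le]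
        norm_num

end

/-- **GW/C** -/
theorem cq_of (h1 : Pool.Agent.N964.GX.S_res) (h2 : S_pos) (h3 : S_bd)
    (h4 : S_zero) : S_cq := by
  intro k A lc F a κ H
  have hκ0 := H.hκ0
  have hκ1 := H.hκ1
  have hk1 : (1:ℝ) ≤ k := by exact_mod_cast H.hk
  have hA := H.hA
  obtain ⟨C1, hC1, hgh⟩ := Y767.WH.good_height_E (k:ℝ) A hk1 H.hA
  obtain ⟨C2, hC2, hbd⟩ := h3
  obtain ⟨P, hP⟩ : ∃ P : ℝ, P = 2 * lc 1 ^ 2 + 12 := ⟨_, rfl⟩
  have hP0 : 1 ≤ P := by
    rw [hP]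
    have := sq_nonneg (lc 1)
    linarith
  have hpi := Real.pi_gt_three
  obtain ⟨Q, hQ⟩ : ∃ Q : ℝ, Q = (C1 + A) * P := ⟨_, rfl⟩
  have hQ0 : 0 < Q := by rw [hQ]; positivity
  refine ⟨20 * Q * C2 + 8, by linarith [show 0 ≤ 20 * Q * C2 by positivity], ?_⟩
  intro t s l ht hs hs1 hl hexp
  have ht8 : 8 ≤ t := by linarith [show 0 ≤ 20 * Q * C2 by positivity]
  have ht0 : 0 < t := by linarith
  have hl0 : 0 < l := by linarith
  have hc := c0_nonneg hl0 hs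
  obtain ⟨V1, hV1, g1⟩ := hgh lc F a H.hlc H.good (t / 2 - 1) (by linarith)
  obtain ⟨V2, hV2, g2⟩ := hgh lc F a H.hlc H.good (3 * t / 2) (by linarith)
  have hV1' : V1 ≤ t / 2 := by linarith [hV1.2]
  have hV11 : 1 ≤ V1 := by linarith [hV1.1]
  have hV12 : V1 ≤ V2 := by linarith [hV2.1]
  refine ⟨V1, V2, ⟨hV1.1, hV1'⟩, hV2, ?_⟩
  -- the size of `lc`
  have hlc : ∀ T : ℝ, 1 ≤ T → T ≤ 3 * t / 2 → lc T ^ 2 ≤ P * t := by
    intro T hT1 hT2
    have h1 : 0 ≤ lc T := (Real.log_nonneg hT1).trans (H.hlc.low T hT1)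
    have h2 := H.hlc.slow 1 T le_rfl hT1
    rw [div_one] at h2
    have h3 := log_sq_le hT1
    have h4 : lc T ^ 2 ≤ (lc 1 + Real.log T) ^ 2 := pow_le_pow_left₀ h1 h2 2
    have h5 : (lc 1 + Real.log T) ^ 2 ≤ 2 * lc 1 ^ 2 + 2 * Real.log T ^ 2 := by
      nlinarith [sq_nonneg (lc 1 - Real.log T)]
    rw [hP]
    have h6 : 2 * lc 1 ^ 2 ≤ 2 * lc 1 ^ 2 * t := by
      have : 0 ≤ 2 * lc 1 ^ 2 := by positivity
      nlinarith
    nlinarith
  obtain ⟨Y, hY⟩ : ∃ Y : ℝ, Y = c0 l s + 1 / (l ^ 2 * s) := ⟨_, rfl⟩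
  have hls : 0 < 1 / (l ^ 2 * s) := by positivity
  have hY0 : 0 ≤ Y := by rw [hY]; positivity
  -- the kernel on the horizontal edges
  have hker : ∀ x V : ℝ, |x - 1 / 2 - κ| ≤ 5 / 4 → t / 2 ≤ |V - t| →
      ‖H2 l s κ (⟨x, V⟩ - (1 / 2 + κ + t * I))‖ ≤ 8 * C2 * Y / t := by
    intro x V hx hV
    have e1 : ((⟨x, V⟩ : ℂ) - (1 / 2 + κ + t * I)).re = x - 1 / 2 - κ := by
      simp
      ring
    have e2 : ((⟨x, V⟩ : ℂ) - (1 / 2 + κ + t * I)).im = V - t := by simp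
    have h1 := hbd l s κ ((⟨x, V⟩ : ℂ) - (1 / 2 + κ + t * I)) hl hs hs1 hκ0 hκ1.le
      (by rw [e1]; exact hx) (Or.inr (by rw [e2]; linarith))
    rw [e1, e2] at h1
    refine h1.trans ?_
    have h3 : t ^ 2 / 4 ≤ 1 + (V - t) ^ 2 := by
      have h4 : (t / 2) ^ 2 ≤ (V - t) ^ 2 := by
        rw [← sq_abs (V - t)]
        exact pow_le_pow_left₀ (by positivity) hV 2
      nlinarith
    have h5 : 1 + Real.exp (l * (x - 1 / 2 - κ)) ≤ 2 * t := by
      have h6 : Real.exp (l * (x - 1 / 2 - κ)) ≤ Real.exp (8 * l) := by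
        apply Real.exp_le_exp.2
        have := (abs_le.1 hx).2
        nlinarith
      linarith
    have h7 : c0 l s + (1 + Real.exp (l * (x - 1 / 2 - κ))) / (l ^ 2 * s) ≤ 2 * t * Y := by
      have h8 : (1 + Real.exp (l * (x - 1 / 2 - κ))) / (l ^ 2 * s) ≤ 2 * t * (1 / (l ^ 2 * s)) := by
        rw [mul_one_div]
        exact div_le_div_of_nonneg_right h5 (by positivity)
      have h9 : c0 l s ≤ 2 * t * c0 l s := by nlinarith
      rw [hY, mul_add]
      linarith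
    calc C2 * (c0 l s + (1 + Real.exp (l * (x - 1 / 2 - κ))) / (l ^ 2 * s)) / (1 + (V - t) ^ 2)
        ≤ C2 * (2 * t * Y) / (t ^ 2 / 4) := by
          apply div_le_div₀ (by positivity) _ (by positivity) h3
          exact mul_le_mul_of_nonneg_left h7 hC2.le
      _ = 8 * C2 * Y / t := by
          field_simp
          ring
  have hhor : ∀ V : ℝ, (V = V1 ∨ V = V2) →
      ‖∫ x in (κ - 3 / 4)..(7 / 4 + κ), deriv F ⟨x, V⟩ / F ⟨x, V⟩ *
        H2 l s κ (⟨x, V⟩ - (1 / 2 + κ + t * I))‖ ≤ 20 * Q * C2 * Y := by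
    intro V hV
    have hb : ∀ x ∈ Set.uIoc (κ - 3 / 4) (7 / 4 + κ), ‖deriv F ⟨x, V⟩ / F ⟨x, V⟩ *
        H2 l s κ (⟨x, V⟩ - (1 / 2 + κ + t * I))‖ ≤ 8 * Q * C2 * Y := by
      intro x hx
      rw [Set.uIoc_of_le (by linarith)] at hx
      have hx2 : |x - 1 / 2 - κ| ≤ 5 / 4 := by
        rw [abs_le]
        constructor <;> linarith [hx.1, hx.2]
      have hPt : 1 ≤ P * t := by nlinarith
      have hV1' : 1 ≤ V := by
        rcases hV with rfl | rfl
        · exact hV11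
        · linarith
      have hF : ‖deriv F ⟨x, V⟩ / F ⟨x, V⟩‖ ≤ (C1 + A) * (P * t) := by
        by_cases hx3 : x ≤ 7 / 4
        · have hx1 : x ∈ Set.Icc (-3 / 4 : ℝ) (7 / 4) := ⟨by linarith [hx.1], hx3⟩
          have h8 : ‖deriv F ⟨x, V⟩ / F ⟨x, V⟩‖ ≤ C1 * (P * t) := by
            rcases hV with rfl | rfl
            · refine ((g1 x hx1).2).trans (mul_le_mul_of_nonneg_left ?_ hC1.le)
              exact hlc _ (by linarith) (by linarith)
            · refine ((g2 x hx1).2).trans (mul_le_mul_of_nonneg_left ?_ hC1.le)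
              exact hlc _ (by linarith) (by linarith)
          have h9 : 0 ≤ A * (P * t) := by positivity
          nlinarith
        · push Not at hx3
          have h8 := right_bd H (z := ⟨x, V⟩) hx3.le hV1'
          have h9 : A ≤ A * (P * t) := by nlinarith
          have h10 : 0 ≤ C1 * (P * t) := by positivity
          nlinarith
      have hVt : t / 2 ≤ |V - t| := by
        rcases hV with rfl | rfl
        · rw [abs_sub_comm]
          exact le_trans (by linarith) (le_abs_self _)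
        · exact le_trans (by linarith [hV2.1]) (le_abs_self _)
      rw [norm_mul]
      calc ‖deriv F ⟨x, V⟩ / F ⟨x, V⟩‖ * ‖H2 l s κ (⟨x, V⟩ - (1 / 2 + κ + t * I))‖
          ≤ (C1 + A) * (P * t) * (8 * C2 * Y / t) :=
            mul_le_mul hF (hker x V hx2 hVt) (norm_nonneg _) (by positivity)
        _ = 8 * Q * C2 * Y := by
            rw [hQ]
            field_simp
    refine (intervalIntegral.norm_integral_le_of_norm_le_const hb).trans (le_of_eq ?_)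
    rw [show (7 / 4 + κ - (κ - 3 / 4)) = (5 / 2 : ℝ) by ring, abs_of_nonneg (by norm_num)]
    ring
  have hfin := core h1 h2 h4 H (t := t) hs hs1 hl0 hV11 (by linarith)
    (by linarith [hV2.1]) (fun x hx => (g1 x hx).1) (fun x hx => (g2 x hx).1) hhor
  refine hfin.trans ?_
  have h10 : 1 / (2 * Real.pi) * (2 * (20 * Q * C2 * Y)) ≤ (20 * Q * C2 + 8) * Y := by
    have h11 : 1 / (2 * Real.pi) * 2 ≤ 1 := by
      rw [one_div_mul_eq_div, div_le_one (by positivity)]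
      linarith
    have h12 : 0 ≤ 20 * Q * C2 * Y := by positivity
    nlinarith
  rw [← hY]
  linarith

end Pool.Agent.N344.GWC
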